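import Pool.Agent.H583_GQ.Gt1
import Pool.Agent.H583_U.U7

/-!
MP_5b1cbc_ag, Q1: pseudo-geometric hyperbolicity and general type of the projective varieties with
rational functions which take certain values with high multiplicities.

`y` is the generic point, in homogeneous coordinates, of a projective variety `X` with function field
`L` (`coords ℂ y = ⊤`: the ratios generate `L`). `Family a y {1} x T` (`Pool/Agent/H583_GQ/Defs.lean`,
with the empty boundary `1 = 0`): `x i`, `i < N`, are rational functions on `X` which define a
generically finite rational map to `(ℙ¹)ᴺ`, such that the vectors of the multiplicities of the values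
`a i j` of the functions `x i` at the points of curves in `X`, with images not in a proper closed
subset of `X`, are in the set `T`. `Good`: the numerical condition for `T`. `PseudoPointed`
(`Pool/Agent/H583_GQ/Ptd.lean`): `X` is pseudo-geometrically hyperbolic. `GeneralType ℂ L d`: the
varieties with the function field `L`, of dimension `d`, are of general type.
-/

set_option autoImplicit false

namespace Pool.Agent.Results.MP_5b1cbc_ag.MultiplicityPointed

open Pool.Agent.H583_GQ Pool.Agent.W602.GT

/-- Let the projective variety `X` with the generic point `y` have rational functions `x i` as in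
`Family`, where the `a i j` are different for different `j`, and the boundary is empty.

(1) If the multiplicities satisfy `Good`, then `X` is pseudo-geometrically hyperbolic, and of general
type if its dimension is positive.

(2) They satisfy `Good` if `p i ≥ 3` for all `i` and all vectors of multiplicities have the sum `0`
or a sum larger than `∑ p i / (p i - 2)`. -/
theorem result (M : ℕ) (L : Type) [Field L] [Algebra ℂ L] (y : Fin (M + 1) → L) (hy : y ≠ 0)
    (hgen : coords ℂ y = ⊤) (N : ℕ) (p : Fin N → ℕ) (a : ∀ i, Fin (p i) → ℂ)
    (ha : ∀ i, Function.Injective (a i)) (x : Fin N → L) (T : Set (∀ i, Fin (p i) → ℕ))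
    (hF : Family a y {1} x T) :
    (Good p T → PseudoPointed y ∧
      ∀ d : ℕ, 1 ≤ d → Algebra.trdeg ℂ L = d → GeneralType ℂ L d) ∧
    ((∀ i, 3 ≤ p i) → (∀ k ∈ T, k ≠ 0 →
      ∑ i, (p i : ℝ) / ((p i : ℝ) - 2) < ((∑ i, ∑ j, k i j : ℕ) : ℝ)) → Good p T) := by
  refine ⟨fun hT => ⟨pointed_of_lin (linBounded ha hF hy hgen hT), fun d hd htr => ?_⟩,
    Pool.Agent.H583_U.good_of_sum⟩
  exact LogGT.general ((Pool.Agent.H583_U.good_strongly ha hF hy hgen hT).self hy hgen not_in_one
    hd htr)

end Pool.Agent.Results.MP_5b1cbc_ag.MultiplicityPointed
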