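import Pool.Agent.H583_GQ.Top2

/-!
MP_5b1cbc_ag, Q1: general type and pseudo-geometric hyperbolicity, for the abelian covers of products
of projective lines.

`Branch` (`Pool/Agent/H583_GP/Defs.lean`): the branch data of an abelian cover of `(ℙ¹)ᴺ` with the
equations `w l ^ m l = ∏ (x i - a i j) ^ e l i j`; `Branch.Cover`: `L` is the function field of a
component of the cover; `Branch.Adm`: the possible vectors of multiplicities `k i j` of the values
`a i j` of the functions `x i` at a point of a curve in the cover; `Branch.Wide`: the numerical
condition for these vectors. `y` is the generic point of a projective model of `L`, in homogeneous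
coordinates (`coords ℂ y = ⊤`: their ratios generate `L`). `GeneralType ℂ L N`: the varieties with the
function field `L`, of dimension `N`, are of general type. `PseudoPointed`
(`Pool/Agent/H583_GQ/Ptd.lean`): the projective variety with the generic point `y` is
pseudo-geometrically hyperbolic.
-/

set_option autoImplicit false

namespace Pool.Agent.Results.MP_5b1cbc_ag.ProductLinePointed

open Pool.Agent.H583_GP (Branch)
open Pool.Agent.H583_GQ Pool.Agent.W602.GT

/-- Let `L` be the function field of a component of the abelian cover of `(ℙ¹)ᴺ`, `N ≥ 1`, with the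
branch data `B`, and suppose that the multiplicities satisfy `Wide`, for instance because all total
multiplicities are larger than `∑ p i / max 1 (p i - 2)`. Let `X` be any projective variety with the
function field `L`. The following are equivalent: `X` is of general type; `X` is pseudo-geometrically
hyperbolic; there are at least three branch points on each of the lines. -/
theorem result (N r : ℕ) (hN : 1 ≤ N) (B : Branch N r)
    (hW : B.Wide ∨ ∀ k, B.Adm k → k ≠ 0 →
      ∑ i, (B.p i : ℝ) / max 1 ((B.p i : ℝ) - 2) < ((∑ i, ∑ j, k i j : ℕ) : ℝ))
    (L : Type) [Field L] [Algebra ℂ L] (x : Fin N → L) (w : Fin r → L) (hC : B.Cover x w)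
    (M : ℕ) (y : Fin (M + 1) → L) (hy : y ≠ 0) (hgen : coords ℂ y = ⊤) :
    [GeneralType ℂ L N, PseudoPointed y, ∀ i, 3 ≤ B.p i].TFAE := by
  have hW' : B.Wide := by
    refine hW.elim id fun h => ?_
    obtain ⟨α, β, h1, h2, h3, h4⟩ := (wideStrong_of_sum (p := B.p) (T := {k | B.Adm k})
      fun k hk hk0 => h k hk hk0).wide
    exact ⟨α, β, h1, h2, h3, fun k hk => h4 k hk⟩
  exact covers_pointed hW' hN hC hy hgen

end Pool.Agent.Results.MP_5b1cbc_ag.ProductLinePointed
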